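import Pool.Agent.Helper49.NF.Goals

/-! # Packet NF-M2S (MP_0130f7_co): the slack at level 2 -/

set_option autoImplicit false

namespace Pool.Agent.Helper62.NF

open Finset
open Pool.Agent.Helper47.SR (lev up dn)

lemma pair_sum {n : ℕ} (w : Finset (Fin n) → ℕ) :
    ∑ v : Fin n, ∑ u ∈ univ.erase v, w {u, v} = 2 * ∑ y ∈ lev n 2, w y := by
  have h1 : ∑ y ∈ lev n 2, ∑ v ∈ y, w y = 2 * ∑ y ∈ lev n 2, w y := by
    rw [mul_sum]
    refine sum_congr rfl fun y hy => ?_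
    rw [sum_const, (mem_powersetCard.1 hy).2, smul_eq_mul]
  rw [← h1, sum_comm' (t' := univ) (s' := fun v => (lev n 2).filter (fun y => v ∈ y))
    (by intro y v; simp)]
  refine sum_congr rfl fun v _ => ?_
  refine sum_bij (fun u _ => {u, v}) ?_ ?_ ?_ ?_
  · intro u hu
    have huv : u ≠ v := (mem_erase.1 hu).1
    rw [mem_filter, mem_powersetCard]
    exact ⟨⟨subset_univ _, card_pair huv⟩, by simp⟩
  · intro u hu u' hu' h
    have huv : u ≠ v := (mem_erase.1 hu).1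
    have : u ∈ ({u', v} : Finset (Fin n)) := by rw [← h]; simp
    rw [mem_insert, mem_singleton] at this
    exact this.resolve_right huv
  · intro y hy
    rw [mem_filter, mem_powersetCard] at hy
    obtain ⟨a, b, hab, rfl⟩ := card_eq_two.1 hy.1.2
    have := hy.2
    rw [mem_insert, mem_singleton] at this
    rcases this with rfl | rfl
    · exact ⟨b, by simp [Ne.symm hab], pair_comm _ _⟩
    · exact ⟨a, by simp [hab], rfl⟩
  · intro u _
    rfl

theorem goal_M2S (hA : Pool.Agent.Helper47.SR.Goal_KKA) (hB : Pool.Agent.Helper47.SR.Goal_KKB)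
    (hM : Pool.Agent.Helper49.NF.Goal_M2A) : Pool.Agent.Helper49.NF.Goal_M2S := by
  refine ⟨10000, fun n hn d δ w hδ hw hd hdn Y hY hsz => ?_⟩
  obtain ⟨-, hb⟩ := hM n d δ w (by omega) hw hd Y hY
  set y : ℕ := #Y with hy
  set s : ℕ := ∑ x ∈ Y, w x with hs
  set U : ℕ := #(up 2 Y) with hU
  set E : ℕ := #(dn 2 Y) with hE
  have hsy : s ≤ y := by
    rw [hs, hy, card_eq_sum_ones]
    exact sum_le_sum fun x _ => hw x
  -- the size condition over `ℤ`
  have hsz' : 400 * ((y : ℤ) + s) ≤ 100 * (n * (n - 1 + d)) + n ^ 2 := by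
    have h1 : 100 * (n ^ 2 / 100) ≤ n ^ 2 := Nat.mul_div_le _ _
    have h2 : 400 * (y + s) ≤ 100 * (n * (n - 1 + d)) + n ^ 2 := by omega
    have h3 : ((n - 1 : ℕ) : ℤ) = (n : ℤ) - 1 := by
      rw [Nat.cast_sub (by omega)]; norm_num
    have h4 : ((400 * (y + s) : ℕ) : ℤ) ≤ ((100 * (n * (n - 1 + d)) + n ^ 2 : ℕ) : ℤ) := by
      exact_mod_cast h2
    push_cast at h4
    rw [h3] at h4
    exact h4
  have hn1 : ((n - 1 : ℕ) : ℤ) = (n : ℤ) - 1 := by
    rw [Nat.cast_sub (by omega)]; norm_num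
  have hn2 : ((n - 2 : ℕ) : ℤ) = (n : ℤ) - 2 := by
    rw [Nat.cast_sub (by omega)]; norm_num
  have hN : (10000 : ℤ) ≤ n := by exact_mod_cast hn
  have hδ' : 10000 * (δ : ℤ) ≤ n := by exact_mod_cast hδ
  have hy0 : (0 : ℤ) ≤ y := Int.natCast_nonneg _
  have hs0 : (0 : ℤ) ≤ s := Int.natCast_nonneg _
  have hd0 : (0 : ℤ) ≤ d := Int.natCast_nonneg _
  have hδ0 : (0 : ℤ) ≤ δ := Int.natCast_nonneg _
  have hE0 : (0 : ℤ) ≤ E := Int.natCast_nonneg _
  have hsy' : (s : ℤ) ≤ y := by exact_mod_cast hsy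
  have hdn' : (d : ℤ) ≤ n := by exact_mod_cast hdn
  -- KKA in integer form
  have key : ∀ z : ℕ, 2 ≤ z → 2 * y ≤ z * (z - 1) → 3 * (E : ℤ) ≤ ((z : ℤ) - 2) * y := by
    intro z hz h
    have h1 : y ≤ z.choose 2 := by
      rw [Nat.choose_two_right]
      omega
    have h2 := hA n 2 z (by norm_num) hz Y hY h1
    have h3 : ((z - 2 : ℕ) : ℤ) = (z : ℤ) - 2 := by
      rw [Nat.cast_sub hz]; norm_num
    have h4 : (((2 + 1) * #(dn 2 Y) : ℕ) : ℤ) ≤ (((z - 2) * #Y : ℕ) : ℤ) := by exact_mod_cast h2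
    push_cast at h4
    rw [h3] at h4
    rw [hE, hy]
    linarith
  suffices h : 1600 * (3 * ((n : ℤ) - 1 + d) * E) + n ^ 2 * y ≤
      1600 * (((n : ℤ) - 1) * (n - 2) * (y + s) + δ * (n - 2) * y) by
    have h' : ((1600 * (3 * (n - 1 + d) * E) + n ^ 2 * y : ℕ) : ℤ) ≤
        ((1600 * ((n - 1) * (n - 2) * (y + s) + δ * (n - 2) * y) : ℕ) : ℤ) := by
      push_cast
      rw [hn1, hn2]
      exact h
    exact_mod_cast h'
  have hb' : 3 * ((n : ℤ) - 1 + d) * E + (d + 1) * U ≤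
      ((n : ℤ) - 1) * (n - 2) * (y + s) + δ * (n - 2) * y + (d + 1) * E := by
    have h' : ((3 * (n - 1 + d) * E + (d + 1) * U : ℕ) : ℤ) ≤
        (((n - 1) * (n - 2) * (y + s) + δ * (n - 2) * y + (d + 1) * E : ℕ) : ℤ) := by
      exact_mod_cast hb
    push_cast at h'
    rw [hn1, hn2] at h'
    exact h'
  rcases le_or_gt n (50 * d) with hc | hc
  · -- case `50 d ≥ n`
    have hc' : (n : ℤ) ≤ 50 * d := by exact_mod_cast hc
    -- the pairs with `w = 0`
    have hpairs : (n : ℤ) * (d - δ) ≤ 2 * (∑ x ∈ lev n 2, w x : ℕ) := by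
      have h1 := pair_sum w
      have h2 : n * d ≤ ∑ v : Fin n, ∑ u ∈ univ.erase v, w {u, v} + n * δ := by
        have h3 : ∑ v : Fin n, d ≤ ∑ v : Fin n, (∑ u ∈ univ.erase v, w {u, v} + δ) :=
          sum_le_sum fun v _ => (hd v).2
        rw [sum_add_distrib, sum_const, sum_const, card_univ, Fintype.card_fin, smul_eq_mul,
          smul_eq_mul] at h3
        exact h3
      rw [h1] at h2
      have h4 : ((n * d : ℕ) : ℤ) ≤ ((2 * ∑ y ∈ lev n 2, w y + n * δ : ℕ) : ℤ) := by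
        exact_mod_cast h2
      push_cast at h4 ⊢
      linarith
    have hcard : 2 * #(lev n 2) = n * (n - 1) := by
      rw [card_powersetCard, card_univ, Fintype.card_fin, Nat.choose_two_right]
      exact Nat.two_mul_div_two_of_even (Nat.even_mul_pred_self n)
    have hy1 : y + ∑ x ∈ lev n 2, w x ≤ #(lev n 2) + s := by
      have h1 : ∑ x ∈ lev n 2, w x = ∑ x ∈ lev n 2 \ Y, w x + ∑ x ∈ Y, w x :=
        (sum_sdiff hY).symm
      have h2 : #(lev n 2) = #(lev n 2 \ Y) + #Y := (card_sdiff_add_card_eq_card hY).symm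
      have h3 : ∑ x ∈ lev n 2 \ Y, w x ≤ #(lev n 2 \ Y) := by
        rw [card_eq_sum_ones]
        exact sum_le_sum fun x _ => hw x
      omega
    have hy2 : 2 * ((y : ℤ) - s) ≤ n * (n - 1) - n * (d - δ) := by
      have h1 : ((2 * #(lev n 2) : ℕ) : ℤ) = ((n * (n - 1) : ℕ) : ℤ) := by exact_mod_cast hcard
      have h2 : ((y + ∑ x ∈ lev n 2, w x : ℕ) : ℤ) ≤ ((#(lev n 2) + s : ℕ) : ℤ) := by
        exact_mod_cast hy1
      push_cast at h1 h2 hpairs
      rw [hn1] at h1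
      linarith
    -- `y ≤ 0.374 n²`
    have hy3 : 10000 * (y : ℤ) ≤ 3800 * n ^ 2 := by
      nlinarith [mul_le_mul_of_nonneg_left hc' (by linarith : (0 : ℤ) ≤ n),
        mul_le_mul_of_nonneg_left hδ' (by linarith : (0 : ℤ) ≤ n)]
    -- KKA
    obtain ⟨z, hz⟩ : ∃ z, z = 9 * n / 10 + 1 := ⟨_, rfl⟩
    have hz1 : 9 * n < 10 * z := by omega
    have hz2 : 10 * z ≤ 9 * n + 10 := by omega
    have hz1' : 9 * (n : ℤ) < 10 * z := by exact_mod_cast hz1
    have hz2' : 10 * (z : ℤ) ≤ 9 * n + 10 := by exact_mod_cast hz2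
    have hk := key z (by omega) (by
      have h1 : 2 * (y : ℤ) ≤ z * (z - 1) := by nlinarith
      have h2 : ((z - 1 : ℕ) : ℤ) = (z : ℤ) - 1 := by
        rw [Nat.cast_sub (by omega)]; norm_num
      have h3 : ((2 * y : ℕ) : ℤ) ≤ ((z * (z - 1) : ℕ) : ℤ) := by
        push_cast
        rw [h2]
        exact h1
      exact_mod_cast h3)
    -- KKB
    have hk2 : ((n : ℤ) - 2) * y ≤ 3 * U := by
      have h1 : #Y ≤ n.choose (n - 2) := by
        rw [Nat.choose_symm (by omega)]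
        calc #Y ≤ #(lev n 2) := card_le_card hY
          _ = n.choose 2 := by rw [card_powersetCard, card_univ, Fintype.card_fin]
      have h2 := hB n 2 n (by omega) (by omega) Y hY h1
      have h3 : n - (n - 2) + 1 = 3 := by omega
      rw [h3] at h2
      have h4 : (((n - 2) * #Y : ℕ) : ℤ) ≤ ((3 * #(up 2 Y) : ℕ) : ℤ) := by exact_mod_cast h2
      push_cast at h4
      rw [hn2] at h4
      rw [hU, hy]
      exact h4
    -- `31 (U - E) ≥ n y`
    have hk3 : (n : ℤ) * y ≤ 31 * (U - E) := by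
      have h1 : ((z : ℤ) - 2) * (10 * y) ≤ (9 * n - 10) * y := by nlinarith
      nlinarith
    have hk4 : (n : ℤ) * (n * y) ≤ 1550 * ((d + 1) * (U - E)) := by
      have h0 : (0 : ℤ) ≤ n * y := mul_nonneg (by linarith) hy0
      have h1 : (n : ℤ) * (n * y) ≤ (50 * d) * (n * y) := mul_le_mul_of_nonneg_right hc' h0
      have h2 : (50 * (d : ℤ)) * (n * y) ≤ (50 * d) * (31 * (U - E)) :=
        mul_le_mul_of_nonneg_left hk3 (by linarith)
      have h3 : (0 : ℤ) ≤ U - E := by linarith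
      nlinarith
    nlinarith
  · -- case `50 d < n`
    have hc' : 50 * (d : ℤ) ≤ n := by exact_mod_cast hc.le
    have hy3 : 10000 * (y : ℤ) ≤ 2600 * n ^ 2 := by
      nlinarith [mul_le_mul_of_nonneg_left hc' (by linarith : (0 : ℤ) ≤ n)]
    obtain ⟨z, hz⟩ : ∃ z, z = 3 * n / 4 + 1 := ⟨_, rfl⟩
    have hz1 : 3 * n < 4 * z := by omega
    have hz2 : 4 * z ≤ 3 * n + 4 := by omega
    have hz1' : 3 * (n : ℤ) < 4 * z := by exact_mod_cast hz1
    have hz2' : 4 * (z : ℤ) ≤ 3 * n + 4 := by exact_mod_cast hz2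
    have hk := key z (by omega) (by
      have h1 : 2 * (y : ℤ) ≤ z * (z - 1) := by nlinarith
      have h2 : ((z - 1 : ℕ) : ℤ) = (z : ℤ) - 1 := by
        rw [Nat.cast_sub (by omega)]; norm_num
      have h3 : ((2 * y : ℕ) : ℤ) ≤ ((z * (z - 1) : ℕ) : ℤ) := by
        push_cast
        rw [h2]
        exact h1
      exact_mod_cast h3)
    have hk2 : 12 * (E : ℤ) ≤ 3 * (n * y) := by nlinarith
    have hD : 50 * ((n : ℤ) - 1 + d) ≤ 51 * n := by linarith
    have h1 : 3 * (((n : ℤ) - 1 + d) * E) * 200 ≤ 153 * (n ^ 2 * y) := by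
      have h2 : (50 * ((n : ℤ) - 1 + d)) * (12 * E) ≤ (51 * n) * (3 * (n * y)) :=
        mul_le_mul hD hk2 (by linarith) (by linarith)
      nlinarith
    have h2 : (99 : ℤ) * (n ^ 2 * y) ≤ 100 * (((n : ℤ) - 1) * (n - 2) * (y + s)) := by
      have h3 : (99 : ℤ) * n ^ 2 ≤ 100 * (((n : ℤ) - 1) * (n - 2)) := by nlinarith
      have h4 : (0 : ℤ) ≤ 100 * (((n : ℤ) - 1) * (n - 2)) := by nlinarith
      have h5 := mul_le_mul_of_nonneg_right h3 hy0
      have h6 := mul_nonneg h4 hs0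
      nlinarith
    have h3 : (0 : ℤ) ≤ δ * (n - 2) * y :=
      mul_nonneg (mul_nonneg hδ0 (by linarith)) hy0
    have h4 : (0 : ℤ) ≤ n ^ 2 * y := mul_nonneg (by positivity) hy0
    nlinarith

end Pool.Agent.Helper62.NF
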